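import Pool.Agent.H17.EQ.TargetsQ

/-!
# The data of `ConR` at a root
-/

set_option autoImplicit false

namespace Pool.Agent.H98.EQ

open MvPolynomial SC Pool.Agent.H27.LV Pool.Agent.H17.VG Pool.Agent.H17.BO Pool.Agent.H30.EE
  Pool.Agent.H17.EQ

/-- Composition of a ring homomorphism of algebras with the evaluation of a form. -/
theorem aeval_up {K L : Type} [Field K] [Field L] [Algebra K L] {n : ℕ} (θ : L)
    (F : MvPolynomial (Fin (n + 1)) K) (Y : Fin (n + 1) → Polynomial K) :
    Polynomial.aeval θ (aeval Y F) = eval (fun l => Polynomial.aeval θ (Y l)) (up L F) := by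
  have h := MvPolynomial.comp_aeval_apply (R := K) Y (Polynomial.aeval θ : Polynomial K →ₐ[K] L) F
  rw [h]
  unfold up
  rw [MvPolynomial.eval_map]
  rfl

theorem pf_ROT : T_ROT := by
  intro K L _ _ _ n r F x U Z V hC θ hθ
  have hd : ∀ G : Polynomial K, U ∣ G → Polynomial.aeval θ G = 0 := by
    rintro G ⟨H, rfl⟩
    have h0 : Polynomial.aeval θ U = 0 := by
      rwa [Polynomial.aeval_def, ← Polynomial.eval_map]
    rw [map_mul, h0, zero_mul]
  have hAV : ∀ i, Polynomial.aeval θ (AV V x i) =
      ∑ l, Polynomial.aeval θ (V i l) * algebraMap K L (x l) := by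
    intro i
    unfold AV
    simp only [map_sum, map_mul, Polynomial.aeval_C]
  refine ⟨?_, ?_, ?_, fun i i' => ?_, fun j => ?_, fun i i' l l' h => ?_⟩
  · rw [← aeval_up]
    exact hd _ hC.p0
  · have h := hd _ hC.p1
    rw [aeval_up] at h
    simpa only [map_sum] using h
  · rw [← aeval_up]
    exact hd _ hC.p2
  · have h := hd _ (hC.inv i i')
    rw [map_sub, sub_eq_zero] at h
    simp only [map_sum, map_mul] at h
    rw [h]
    split_ifs <;> simp
  · have h := hd _ (hC.pt j)
    rw [map_sub, sub_eq_zero] at h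
    simp only [map_sum, map_mul, Polynomial.aeval_C, hAV] at h
    exact h
  · have h' := hd _ (hC.rnc i i' l l' h)
    rw [map_sub, sub_eq_zero] at h'
    simp only [map_mul, hAV] at h'
    exact h'

end Pool.Agent.H98.EQ
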