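import Pool.Agent.H17.EQ.TargetsQ
import Pool.Agent.H64.SC.Api
import Pool.Agent.H27.LV.Curve

/-!
# UNR: the parameter at the good places
-/

set_option autoImplicit false

namespace Pool.Agent.H98.EQ

open MvPolynomial SC Pool.Agent.H27.LV Pool.Agent.H17.VG Pool.Agent.H17.BO Pool.Agent.H30.EE
  Pool.Agent.H17.EQ

namespace UNR

/-- evaluation and ring homomorphisms -/
theorem map_ev {τ R S : Type} [CommRing R] [CommRing S] (φ : R →+* S) (p : MvPolynomial τ R)
    (u : τ → R) : φ (eval u p) = eval (fun i => φ (u i)) (MvPolynomial.map φ p) := by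
  rw [eval_map, eval₂_eq, eval_eq, map_sum]
  refine Finset.sum_congr rfl fun m _ => ?_
  rw [map_mul, map_prod]
  simp only [map_pow]

/-- a form at a multiple of a point -/
theorem eval_mul_pt {κ : Type} [CommRing κ] {n d : ℕ} {G : MvPolynomial (Fin (n + 1)) κ}
    (hG : G.IsHomogeneous d) (c : κ) (y : Fin (n + 1) → κ) :
    eval (fun a => c * y a) G = c ^ d * eval y G := by
  rw [eval_eq, eval_eq, Finset.mul_sum]
  refine Finset.sum_congr rfl fun m hm => ?_
  have h1 : ∑ i ∈ m.support, m i = d := by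
    have h2 := hG (mem_support_iff.1 hm)
    rw [← h2, Finsupp.weight_apply, Finsupp.sum]
    simp
  rw [Finset.prod_congr rfl fun i _ => mul_pow c (y i) (m i), Finset.prod_mul_distrib,
    Finset.prod_pow_eq_pow_sum, h1]
  ring

/-- multiples of the point `x` -/
theorem scale {K : Type} [Field K] {n r : ℕ} {F : MvPolynomial (Fin (n + 1)) K}
    {x : Fin (n + 1) → K} {ζ ν : Fin (r + 1) → Fin (n + 1) → K} (h : PtR F x ζ ν) (c : K) :
    PtR F (fun j => c * x j) ζ ν := by
  have hs : ∀ i, ∑ l, ν i l * (c * x l) = c * ∑ l, ν i l * x l := by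
    intro i
    rw [Finset.mul_sum]
    exact Finset.sum_congr rfl fun l _ => by ring
  refine ⟨h.p0, h.p1, h.p2, h.inv, fun j => ?_, fun i i' l l' hi => ?_⟩
  · rw [← h.pt j, Finset.mul_sum]
    refine Finset.sum_congr rfl fun i _ => ?_
    rw [hs]
    ring
  · rw [hs, hs, hs, hs]
    linear_combination c ^ 2 * h.rnc i i' l l' hi

/-- the elements of `GD` form a subring -/
theorem gd_subring {k K L : Type} [Field k] [Field K] [Field L] [Algebra k K]
    [Algebra k L] [Algebra K L] (v : DV k K) (w : DV k L) (e : ℕ) (D : Derivation k K K)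
    (D' : Derivation k L L) (h1 : ∀ a : K, ge v 0 a → GD v w e D D' (algebraMap K L a))
    (h2 : ∀ z z' : L, GD v w e D D' z → GD v w e D D' z' →
      GD v w e D D' (z + z') ∧ GD v w e D D' (z * z') ∧ GD v w e D D' (-z)) :
    ∃ S : Subring L, ∀ z, z ∈ S ↔ GD v w e D D' z := by
  refine ⟨{ carrier := {z | GD v w e D D' z}
            mul_mem' := fun {a b} ha hb => (h2 a b ha hb).2.1
            one_mem' := by
              have := h1 1 (ge_one v)
              rwa [map_one] at this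
            add_mem' := fun {a b} ha hb => (h2 a b ha hb).1
            zero_mem' := by
              have := h1 0 (ge_zero v 0)
              rwa [map_zero] at this
            neg_mem' := fun {a} ha => (h2 a a ha ha).2.2 }, fun z => Iff.rfl⟩

/-- The coordinates of an integral point are units. -/
theorem units (hALP : Pool.Agent.H17.EQ.T_ALP) {k L : Type} [Field k] [Field L] [Algebra k L] (w : DV k L)
    {n r d : ℕ} (F : MvPolynomial (Fin (n + 1)) L) (x : Fin (n + 1) → L)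
    (ζ ν : Fin (r + 1 + 1) → Fin (n + 1) → L) (hd : 1 ≤ d) (hF : F.IsHomogeneous d)
    (hFc : ∀ m, ge w 0 (coeff m F)) (hx : ∀ i, ge w 0 (x i)) (hζ : ∀ i l, ge w 0 (ζ i l))
    (hν : ∀ i l, ge w 0 (ν i l)) (hP : PtR F x ζ ν) (h0 : eval x F ≠ 0)
    (h1 : w.ord (eval x F) = 0) (α : Fin (r + 1 + 1) → L) (hα : ∀ i, α i = ∑ l, ν i l * x l) :
    (α 0 ≠ 0 ∧ w.ord (α 0) = 0) ∧ (α 1 ≠ 0 ∧ w.ord (α 1) = 0) ∧
      (α 1 - α 0 ≠ 0 ∧ w.ord (α 1 - α 0) = 0) := by
  have hge : ∀ z : L, ge w 0 z → 0 ≤ w.ord z := by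
    rintro z (h | h)
    · rw [h, w.ord_zero]
    · exact h
  obtain ⟨ζ', hζ'⟩ : ∃ ζ' : Fin (r + 1 + 1) → Fin (n + 1) → w.vs,
      ∀ i j, (ζ' i j : L) = ζ i j := ⟨fun i j => ⟨ζ i j, hge _ (hζ i j)⟩, fun _ _ => rfl⟩
  obtain ⟨ν', hν'⟩ : ∃ ν' : Fin (r + 1 + 1) → Fin (n + 1) → w.vs,
      ∀ i j, (ν' i j : L) = ν i j := ⟨fun i j => ⟨ν i j, hge _ (hν i j)⟩, fun _ _ => rfl⟩
  obtain ⟨x', hx'⟩ : ∃ x' : Fin (n + 1) → w.vs, ∀ i, (x' i : L) = x i :=
    ⟨fun i => ⟨x i, hge _ (hx i)⟩, fun _ => rfl⟩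
  obtain ⟨G', hG', hG'c⟩ := DV.exists_lift_poly w F (fun m => hge _ (hFc m))
  have hι : ∀ z : w.vs, w.vs.subtype z = (z : L) := fun _ => rfl
  obtain ⟨ρ, hρ⟩ : ∃ ρ : w.vs →+* w.Res, ρ = IsLocalRing.residue w.vs := ⟨_, rfl⟩
  have hρu : ∀ z : w.vs, ρ z ≠ 0 ↔ IsUnit z := fun z => by
    rw [hρ]
    exact IsLocalRing.residue_ne_zero_iff_isUnit z
  have hev : ∀ u' : Fin (n + 1) → w.vs, ((eval u' G' : w.vs) : L) =
      eval (fun i => (u' i : L)) F := by
    intro u'
    rw [← hι, map_ev, hG']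
    rfl
  have hG'h : G'.IsHomogeneous d := by
    intro m hm
    refine hF ?_
    rw [← hG'c]
    intro h1
    exact hm (Subtype.val_injective h1)
  have hsum : ∀ i, ((∑ l, ν' i l * x' l : w.vs) : L) = ∑ l, ν i l * x l := by
    intro i
    rw [← hι, map_sum]
    refine Finset.sum_congr rfl fun l _ => ?_
    rw [map_mul, hι, hι, hν', hx']
  have hρsum : ∀ i, ρ (∑ l, ν' i l * x' l) = ∑ l, ρ (ν' i l) * ρ (x' l) := by
    intro i
    rw [map_sum]
    simp only [map_mul]
  have hz : ∀ u' : Fin (n + 1) → w.vs, eval (fun i => (u' i : L)) F = 0 →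
      eval (fun i => ρ (u' i)) (MvPolynomial.map ρ G') = 0 := by
    intro u' hu
    have h2 : eval u' G' = 0 := by
      apply Subtype.val_injective
      rw [hev, hu]
      rfl
    rw [← map_ev, h2, map_zero]
  have hPR : PtR (MvPolynomial.map ρ G') (fun i => ρ (x' i)) (fun i l => ρ (ζ' i l))
      (fun i l => ρ (ν' i l)) := by
    refine ⟨?_, ?_, ?_, fun i i' => ?_, fun j => ?_, fun i i' l l' hi => ?_⟩
    · refine hz (ζ' 0) ?_
      have h2 : (fun i => (ζ' 0 i : L)) = ζ 0 := funext fun i => hζ' 0 i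
      rw [h2, hP.p0]
    · have h3 : (fun j => ∑ i, ρ (ζ' i j)) = fun j => ρ (∑ i, ζ' i j) := by
        funext j
        rw [map_sum]
      rw [h3]
      refine hz (fun j => ∑ i, ζ' i j) ?_
      have h2 : (fun j => ((∑ i, ζ' i j : w.vs) : L)) = fun j => ∑ i, ζ i j := by
        funext j
        rw [← hι, map_sum]
        exact Finset.sum_congr rfl fun i _ => hζ' i j
      rw [h2, hP.p1]
    · refine hz (ζ' (Fin.last (r + 1))) ?_
      have h2 : (fun i => (ζ' (Fin.last (r + 1)) i : L)) = ζ (Fin.last (r + 1)) :=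
        funext fun i => hζ' _ i
      rw [h2, hP.p2]
    · have h2 : ∑ l, ν' i l * ζ' i' l = if i = i' then 1 else 0 := by
        apply Subtype.val_injective
        have h3 : ((∑ l, ν' i l * ζ' i' l : w.vs) : L) = ∑ l, ν i l * ζ i' l := by
          rw [← hι, map_sum]
          refine Finset.sum_congr rfl fun l _ => ?_
          rw [map_mul, hι, hι, hν', hζ']
        rw [h3, hP.inv]
        split_ifs <;> rfl
      have h4 := congrArg ρ h2
      rw [map_sum] at h4
      simp only [map_mul] at h4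
      rw [h4]
      split_ifs
      · exact map_one ρ
      · exact map_zero ρ
    · have h2 : ∑ i, ζ' i j * ∑ l, ν' i l * x' l = x' j := by
        apply Subtype.val_injective
        have h3 : ((∑ i, ζ' i j * ∑ l, ν' i l * x' l : w.vs) : L) =
            ∑ i, ζ i j * ∑ l, ν i l * x l := by
          rw [← hι, map_sum]
          refine Finset.sum_congr rfl fun i _ => ?_
          rw [map_mul, hι, hι, hsum, hζ']
        rw [h3, hP.pt, hx']
      have h4 := congrArg ρ h2
      rw [map_sum] at h4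
      simp only [map_mul, hρsum] at h4
      exact h4
    · have h2 : (∑ j, ν' i j * x' j) * (∑ j, ν' i' j * x' j) =
          (∑ j, ν' l j * x' j) * (∑ j, ν' l' j * x' j) := by
        apply Subtype.val_injective
        have h3 := hP.rnc i i' l l' hi
        rw [← hsum, ← hsum, ← hsum, ← hsum] at h3
        exact h3
      have h4 := congrArg ρ h2
      rw [map_mul, map_mul, hρsum, hρsum, hρsum, hρsum] at h4
      exact h4
  have hne : eval (fun i => ρ (x' i)) (MvPolynomial.map ρ G') ≠ 0 := by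
    have hxx : (fun i => (x' i : L)) = x := funext hx'
    rw [← map_ev, hρu, w.isUnit_vs_iff, hev, hxx]
    exact ⟨h0, h1⟩
  obtain ⟨a0, a1, a2, -⟩ := hALP w.Res n r d (MvPolynomial.map ρ G') (fun i => ρ (x' i))
    (fun i l => ρ (ζ' i l)) (fun i l => ρ (ν' i l)) hd (hG'h.map ρ) hne hPR
    (fun i => ρ (∑ l, ν' i l * x' l)) hρsum
  have b0 := (w.isUnit_vs_iff).1 ((hρu _).1 a0)
  have b1 := (w.isUnit_vs_iff).1 ((hρu _).1 a1)
  have b2 : ρ (∑ l, ν' 1 l * x' l - ∑ l, ν' 0 l * x' l) ≠ 0 := by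
    rw [map_sub, sub_ne_zero]
    exact a2
  have b3 := (w.isUnit_vs_iff).1 ((hρu _).1 b2)
  have e0 : ((∑ l, ν' 0 l * x' l : w.vs) : L) = α 0 := by rw [hsum, hα]
  have e1 : ((∑ l, ν' 1 l * x' l : w.vs) : L) = α 1 := by rw [hsum, hα]
  have e2 : ((∑ l, ν' 1 l * x' l - ∑ l, ν' 0 l * x' l : w.vs) : L) = α 1 - α 0 := by
    rw [← hι, map_sub, hι, hι, e0, e1]
  rw [e0] at b0
  rw [e1] at b1
  rw [e2] at b3
  exact ⟨b0, b1, b3⟩

end UNR

open UNR in
theorem pf_UNR (hGDR : T_GDR) (hROT : T_ROT) (hALP : Pool.Agent.H17.EQ.T_ALP) : T_UNR := by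
  intro k K L _ _ _ _ _ _ _ _ _ _ _ htr D D' hD hDD n r d F x p hd hF hxp hFx U Z V hC θ hθ α
    hα v w e hvw hU hZ hV hθ0 hθ1 hord
  obtain ⟨g1, g2, g3, g4⟩ := hGDR k K L htr D D' hD hDD v w e hvw
  obtain ⟨S, hS⟩ := gd_subring v w e D D' g1 g2
  have hFK : (up K F).IsHomogeneous d := hF.map _
  have hFL : (up L (up K F)).IsHomogeneous d := hFK.map _
  -- the derivative
  have hder : (Polynomial.derivative (U.map (algebraMap K L))).eval θ ≠ 0 := by
    have h1 : (U.map (algebraMap K L)).Separable := hC.sep.map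
    obtain ⟨a, b, hab⟩ := h1
    intro h
    have h2 := congrArg (Polynomial.eval θ) hab
    rw [Polynomial.eval_add, Polynomial.eval_mul, Polynomial.eval_mul, hθ, h, mul_zero, mul_zero,
      add_zero, Polynomial.eval_one] at h2
    exact zero_ne_one h2
  obtain ⟨-, g5⟩ := g4 U θ hU hθ hθ0 hder hθ1
  have hζS : ∀ i l, Polynomial.aeval θ (Z i l) ∈ S := fun i l => (hS _).2 (g5 _ (hZ i l))
  have hνS : ∀ i l, Polynomial.aeval θ (V i l) ∈ S := fun i l => (hS _).2 (g5 _ (hV i l))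
  have hgeS : ∀ z, z ∈ S → ge w 0 z := fun z hz => ((hS z).1 hz).1
  -- the normalised coordinates
  obtain ⟨lam, hlam⟩ : ∃ lam : K, lam = v.unif ^ (poleOrder v x) := ⟨_, rfl⟩
  have hlam0 : lam ≠ 0 := by
    rw [hlam]
    exact pow_ne_zero _ v.unif_ne_zero
  have hlamo : v.ord lam = poleOrder v x := by
    rw [hlam, v.ord_unif_pow]
  have hlx : ∀ i, ge v 0 (lam * x i) := by
    intro i
    by_cases hi : x i = 0
    · left
      rw [hi, mul_zero]
    · right
      rw [v.ord_mul _ _ hlam0 hi, hlamo]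
      have h1 : (-(v.ord (x i))).toNat ≤ poleOrder v x :=
        Finset.le_sup (f := fun i => (-(v.ord (x i))).toNat) (Finset.mem_univ i)
      omega
  obtain ⟨lL, hlL⟩ : ∃ lL : L, lL = algebraMap K L lam := ⟨_, rfl⟩
  have hlL0 : lL ≠ 0 := by
    rw [hlL]
    exact (map_ne_zero _).2 hlam0
  have hxS : ∀ j, lL * algebraMap K L (x j) ∈ S := fun j => by
    rw [hlL, ← map_mul, hS]
    exact g1 _ (hlx _)
  have hcoe : ∀ m, ge w 0 (coeff m (up L (up K F))) := by
    intro m
    have h1 : coeff m (up L (up K F)) = algebraMap k L (coeff m F) := by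
      unfold up
      rw [coeff_map, coeff_map, ← IsScalarTower.algebraMap_apply]
    rw [h1]
    exact ge_const w _
  have hev : eval (fun j => lL * algebraMap K L (x j)) (up L (up K F)) =
      lL ^ d * algebraMap K L (eval x (up K F)) := by
    rw [eval_mul_pt hFL, map_ev (algebraMap K L) (up K F) x]
    rfl
  have hev0 : eval (fun j => lL * algebraMap K L (x j)) (up L (up K F)) ≠ 0 := by
    rw [hev]
    exact mul_ne_zero (pow_ne_zero _ hlL0) ((map_ne_zero _).2 hFx)
  have hev1 : w.ord (eval (fun j => lL * algebraMap K L (x j)) (up L (up K F))) = 0 := by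
    rw [hev, w.ord_mul _ _ (pow_ne_zero _ hlL0) ((map_ne_zero _).2 hFx), w.ord_pow, hlL, hvw.2,
      hvw.2, hlamo, hord]
    ring
  obtain ⟨β, hβ⟩ : ∃ β : Fin (r + 1 + 1) → L, ∀ i, β i = lL * α i := ⟨_, fun _ => rfl⟩
  have hβs : ∀ i, β i = ∑ l, Polynomial.aeval θ (V i l) * (lL * algebraMap K L (x l)) := by
    intro i
    rw [hβ, hα, Finset.mul_sum]
    exact Finset.sum_congr rfl fun l _ => by ring
  obtain ⟨⟨b0, c0⟩, ⟨b1, c1⟩, ⟨b2, c2⟩⟩ := units hALP w (up L (up K F))
    (fun j => lL * algebraMap K L (x j)) (fun i l => Polynomial.aeval θ (Z i l))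
    (fun i l => Polynomial.aeval θ (V i l)) hd hFL hcoe (fun j => hgeS _ (hxS j))
    (fun i l => hgeS _ (hζS i l)) (fun i l => hgeS _ (hνS i l))
    (scale (hROT K L n (r + 1) (up K F) x U Z V hC θ hθ) lL) hev0 hev1 β hβs
  have ht : α 1 / α 0 = β 1 / β 0 := by
    rw [hβ, hβ, mul_div_mul_left _ _ hlL0]
  have ht1 : 1 - β 1 / β 0 = -(β 1 - β 0) / β 0 := by
    field_simp
    ring
  rw [ht]
  refine ⟨?_, ?_, ?_⟩
  · rw [w.ord_div b1 b0, c1, c0, sub_zero]
  · rw [ht1, w.ord_div (neg_ne_zero.2 b2) b0, w.ord_neg, c2, c0, sub_zero]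
  · have hβS : ∀ i, β i ∈ S := fun i => by
      rw [hβs]
      exact S.sum_mem fun l _ => S.mul_mem (hνS i l) (hxS l)
    have htS : β 1 / β 0 ∈ S := by
      rw [div_eq_mul_inv]
      exact S.mul_mem (hβS 1) ((hS _).2 (g3 _ ((hS _).1 (hβS 0)) b0 c0))
    exact ((hS _).1 htS).2

end Pool.Agent.H98.EQ
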